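import Pool.Agent.H28.BR.Stm3

set_option autoImplicit false

/-! Project BR3 (helper28), module PSD (helper97): one dyadic block. -/

namespace Pool.Agent.H97.BR

open Finset Filter Topology MeasureTheory Pool.Agent.H28.BR Pool.Agent.H28.BR3

noncomputable section

lemma nd_nonneg (x : ℝ) : 0 ≤ nd x := abs_nonneg _

lemma gd_nonneg {L : ℝ} (x : ℝ) (hL : 0 ≤ L) : 0 ≤ gd L x := by
  unfold gd
  have := nd_nonneg x
  positivity

lemma gd_le {L : ℝ} (x : ℝ) (hL : 0 ≤ L) : gd L x ≤ 2 * L := by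
  unfold gd
  have := nd_nonneg x
  exact div_le_self (by positivity) (by nlinarith [mul_nonneg hL this])

lemma gd_le_inv {L x n : ℝ} (hL : 0 ≤ L) (hn : 0 < n) (hx : n ≤ nd x) : gd L x ≤ 1 / n := by
  unfold gd
  have h0 : 0 < 1 + 2 * L * nd x := by
    have := nd_nonneg x
    positivity
  rw [div_le_div_iff₀ h0 hn]
  nlinarith

lemma nd_ge_fract (x : ℝ) : min (Int.fract x) (1 - Int.fract x) ≤ nd x := by
  unfold nd
  set t := Int.fract x with ht
  have ht0 : 0 ≤ t := Int.fract_nonneg x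
  have ht1 : t < 1 := Int.fract_lt_one x
  set k : ℤ := round x - ⌊x⌋ with hk
  have e1 : x - round x = t - k := by
    rw [ht, hk]
    unfold Int.fract
    push_cast
    ring
  rw [e1]
  rcases le_or_gt k 0 with h | h
  · have hk0 : (k : ℝ) ≤ 0 := by exact_mod_cast h
    refine (min_le_left _ _).trans ?_
    rw [abs_of_nonneg (by linarith)]
    linarith
  · have hk1 : (1 : ℝ) ≤ k := by exact_mod_cast h
    refine (min_le_right _ _).trans ?_
    rw [abs_of_nonpos (by linarith)]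
    linarith

/-- the position of `β - b / s` -/
def kf (s : ℕ) (β : ℝ) (b : ℕ) : ℕ := ⌊(s : ℝ) * Int.fract (β - (b : ℝ) / s)⌋₊

lemma kf_lt {s : ℕ} (hs : 1 ≤ s) (β : ℝ) (b : ℕ) : kf s β b < s := by
  have hs0 : (0 : ℝ) < s := by exact_mod_cast hs
  unfold kf
  rw [Nat.floor_lt (mul_nonneg hs0.le (Int.fract_nonneg _))]
  have := Int.fract_lt_one (β - (b : ℝ) / s)
  nlinarith

lemma kf_inj {s : ℕ} (hs : 1 ≤ s) (β : ℝ) : Set.InjOn (kf s β) (range s : Finset ℕ) := by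
  intro b hb b' hb' h
  rw [mem_coe, mem_range] at hb hb'
  have hs0 : (0 : ℝ) < s := by exact_mod_cast hs
  unfold kf at h
  obtain ⟨t, ht⟩ : ∃ t, t = Int.fract (β - (b : ℝ) / s) := ⟨_, rfl⟩
  obtain ⟨t', ht'⟩ : ∃ t', t' = Int.fract (β - (b' : ℝ) / s) := ⟨_, rfl⟩
  rw [← ht, ← ht'] at h
  have ht0 : 0 ≤ t := ht ▸ Int.fract_nonneg _
  have ht0' : 0 ≤ t' := ht' ▸ Int.fract_nonneg _
  have f1 := Nat.floor_le (mul_nonneg hs0.le ht0)
  have f2 := Nat.lt_floor_add_one ((s : ℝ) * t)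
  have f1' := Nat.floor_le (mul_nonneg hs0.le ht0')
  have f2' := Nat.lt_floor_add_one ((s : ℝ) * t')
  rw [h] at f1 f2
  obtain ⟨k, hk⟩ : ∃ k : ℤ, k = ⌊β - (b : ℝ) / s⌋ - ⌊β - (b' : ℝ) / s⌋ := ⟨_, rfl⟩
  have e2 : (s : ℝ) * (t - t') = (b' : ℝ) - b - k * s := by
    rw [ht, ht', hk]
    unfold Int.fract
    push_cast
    field_simp
    ring
  obtain ⟨Z, hZ⟩ : ∃ Z : ℤ, Z = (b' : ℤ) - b - k * s := ⟨_, rfl⟩
  have e3 : (Z : ℝ) = (s : ℝ) * (t - t') := by
    rw [e2, hZ]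
    push_cast
    ring
  have hZ1 : |(Z : ℝ)| < 1 := by
    rw [e3, abs_lt]
    constructor <;> nlinarith
  have hZ0 : Z = 0 := by
    by_contra hne
    have : (1 : ℝ) ≤ |(Z : ℝ)| := by exact_mod_cast Int.one_le_abs hne
    linarith
  have h1 : (b' : ℤ) - b = k * s := by rw [hZ] at hZ0; linarith
  have hsZ : (0 : ℤ) < s := by exact_mod_cast hs
  have hbZ : (b : ℤ) < s := by exact_mod_cast hb
  have hbZ' : (b' : ℤ) < s := by exact_mod_cast hb'
  have u1 : k * (s : ℤ) < 1 * s := by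
    rw [← h1]
    omega
  have u2 : (-1) * (s : ℤ) < k * s := by
    rw [← h1]
    omega
  have u3 := lt_of_mul_lt_mul_right u1 hsZ.le
  have u4 := lt_of_mul_lt_mul_right u2 hsZ.le
  have hk0 : k = 0 := by omega
  rw [hk0] at h1
  omega

/-- the fractions with denominator `s` -/
def Bs (s : ℕ) : Finset ℕ := (range s).filter (fun b => b.Coprime s)

/-- the near fractions -/
def near (s : ℕ) (L β : ℝ) : ℝ := ∑ b ∈ (Bs s).filter (fun b => ¬ (1 ≤ kf s β b ∧ kf s β b + 2 ≤ s)), gd L (β - (b : ℝ) / s)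

lemma near_nonneg (s : ℕ) {L : ℝ} (β : ℝ) (hL : 0 ≤ L) : 0 ≤ near s L β :=
  sum_nonneg fun _ _ => gd_nonneg _ hL

lemma near_le_Psi (s : ℕ) {L : ℝ} (β : ℝ) (hL : 0 ≤ L) : near s L β ≤ Psi s L β :=
  sum_le_sum_of_subset_of_nonneg (filter_subset _ _) fun _ _ _ => gd_nonneg _ hL

lemma near_le {s : ℕ} (hs : 1 ≤ s) {L : ℝ} (β : ℝ) (hL : 0 ≤ L) : near s L β ≤ 4 * L := by
  have h1 : ((Bs s).filter (fun b => ¬ (1 ≤ kf s β b ∧ kf s β b + 2 ≤ s))).card ≤ 2 := by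
    have h2 : (((Bs s).filter (fun b => ¬ (1 ≤ kf s β b ∧ kf s β b + 2 ≤ s))).image (kf s β)).card ≤ ({0, s - 1} : Finset ℕ).card := by
      refine card_le_card fun k hk => ?_
      obtain ⟨b, hb, rfl⟩ := mem_image.1 hk
      have h3 := (mem_filter.1 hb).2
      have h4 := kf_lt hs β b
      rw [mem_insert, mem_singleton]
      omega
    rw [card_image_of_injOn] at h2
    · exact h2.trans card_le_two
    · exact (kf_inj hs β).mono (by
        intro b hb
        rw [mem_coe] at hb ⊢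
        exact (mem_filter.1 (mem_filter.1 hb).1).1)
  unfold near
  refine (sum_le_sum (g := fun _ => 2 * L) fun b _ => gd_le _ hL).trans ?_
  rw [sum_const, nsmul_eq_mul]
  have h3 : (((Bs s).filter (fun b => ¬ (1 ≤ kf s β b ∧ kf s β b + 2 ≤ s))).card : ℝ) ≤ 2 := by exact_mod_cast h1
  have := mul_le_mul_of_nonneg_right h3 (by positivity : 0 ≤ 2 * L)
  linarith

lemma harm (n : ℕ) : ∑ i ∈ range n, 1 / ((i : ℝ) + 1) ≤ 1 + Real.log n := by
  have h := harmonic_le_one_add_log n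
  unfold harmonic at h
  push_cast at h
  simpa only [one_div] using h

lemma far_le {s : ℕ} (hs : 1 ≤ s) {L : ℝ} (β : ℝ) (hL : 0 ≤ L) :
    ∑ b ∈ (Bs s).filter (fun b => 1 ≤ kf s β b ∧ kf s β b + 2 ≤ s), gd L (β - (b : ℝ) / s) ≤ 2 * (s * lg s) := by
  have hs0 : (0 : ℝ) < s := by exact_mod_cast hs
  have hs1 : (1 : ℝ) ≤ s := by exact_mod_cast hs
  have hlg : 0 ≤ Real.log s := Real.log_nonneg hs1
  obtain ⟨f, hf⟩ : ∃ f : ℕ → ℝ, f = fun i : ℕ => 1 / ((i : ℝ) + 1) := ⟨_, rfl⟩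
  have hf0 : ∀ i, 0 ≤ f i := fun i => by rw [hf]; positivity
  have h1 : ∀ b ∈ (Bs s).filter (fun b => 1 ≤ kf s β b ∧ kf s β b + 2 ≤ s),
      gd L (β - (b : ℝ) / s) ≤ s * (f (kf s β b - 1) + f (s - 2 - 1 - (kf s β b - 1))) := by
    intro b hb
    obtain ⟨h2, h3⟩ := (mem_filter.1 hb).2
    have hnd := nd_ge_fract (β - (b : ℝ) / s)
    obtain ⟨t, ht⟩ : ∃ t, t = Int.fract (β - (b : ℝ) / s) := ⟨_, rfl⟩
    obtain ⟨k, hk⟩ : ∃ k, k = kf s β b := ⟨_, rfl⟩
    have hk' : k = ⌊(s : ℝ) * t⌋₊ := by rw [hk, ht]; rfl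
    rw [← ht] at hnd
    rw [← hk] at h2 h3 ⊢
    have ht0 : 0 ≤ t := ht ▸ Int.fract_nonneg _
    have f1 : (k : ℝ) ≤ s * t := by rw [hk']; exact Nat.floor_le (mul_nonneg hs0.le ht0)
    have f2 : (s : ℝ) * t < (k : ℝ) + 1 := by rw [hk']; exact Nat.lt_floor_add_one _
    have hk0 : (0 : ℝ) < k := by exact_mod_cast h2
    have e1 : f (k - 1) = 1 / (k : ℝ) := by
      rw [hf]
      simp only
      rw [Nat.cast_sub h2]
      congr 1
      push_cast
      ring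
    have hk3 : (0 : ℝ) < (s : ℝ) - 1 - k := by
      have : (k : ℝ) + 2 ≤ s := by exact_mod_cast h3
      linarith
    have e2 : f (s - 2 - 1 - (k - 1)) = 1 / ((s : ℝ) - 1 - k) := by
      rw [hf]
      simp only
      have e3 : s - 2 - 1 - (k - 1) + 1 = s - 1 - k := by omega
      have e4 : (((s - 2 - 1 - (k - 1) : ℕ) : ℝ) + 1) = ((s - 1 - k : ℕ) : ℝ) := by
        rw [← e3]; push_cast; ring
      rw [e4, Nat.cast_sub (by omega), Nat.cast_sub (by omega)]
      push_cast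
      ring
    rw [e1, e2]
    rcases le_total t (1 - t) with h | h
    · rw [min_eq_left h] at hnd
      have h4 : (k : ℝ) / s ≤ nd (β - (b : ℝ) / s) := by
        refine le_trans ?_ hnd
        rw [div_le_iff₀ hs0]
        linarith
      have h5 := gd_le_inv hL (by positivity) h4
      rw [one_div_div] at h5
      have h6 : 0 ≤ (s : ℝ) * (1 / ((s : ℝ) - 1 - k)) := by positivity
      have h7 : (s : ℝ) / k = s * (1 / (k : ℝ)) := by ring
      rw [mul_add]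
      linarith
    · rw [min_eq_right h] at hnd
      have h4 : ((s : ℝ) - 1 - k) / s ≤ nd (β - (b : ℝ) / s) := by
        refine le_trans ?_ hnd
        rw [div_le_iff₀ hs0]
        linarith
      have h5 := gd_le_inv hL (by positivity) h4
      rw [one_div_div] at h5
      have h6 : 0 ≤ (s : ℝ) * (1 / (k : ℝ)) := by positivity
      have h7 : (s : ℝ) / ((s : ℝ) - 1 - k) = s * (1 / ((s : ℝ) - 1 - k)) := by ring
      rw [mul_add]
      linarith
  refine (sum_le_sum h1).trans ?_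
  rw [← mul_sum]
  have h2 : ∑ b ∈ (Bs s).filter (fun b => 1 ≤ kf s β b ∧ kf s β b + 2 ≤ s),
      (f (kf s β b - 1) + f (s - 2 - 1 - (kf s β b - 1))) ≤ ∑ i ∈ range (s - 2), (f i + f (s - 2 - 1 - i)) := by
    have hinj : Set.InjOn (fun b => kf s β b - 1) ((Bs s).filter (fun b => 1 ≤ kf s β b ∧ kf s β b + 2 ≤ s) : Finset ℕ) := by
      intro b hb b' hb' h
      rw [mem_coe, mem_filter] at hb hb'
      simp only at h
      exact kf_inj hs β (mem_coe.2 (mem_filter.1 hb.1).1) (mem_coe.2 (mem_filter.1 hb'.1).1) (by omega)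
    rw [← sum_image (f := fun i => f i + f (s - 2 - 1 - i)) hinj]
    refine sum_le_sum_of_subset_of_nonneg ?_ fun i _ _ => add_nonneg (hf0 _) (hf0 _)
    intro i hi
    obtain ⟨b, hb, rfl⟩ := mem_image.1 hi
    have := (mem_filter.1 hb).2
    rw [mem_range]
    omega
  have h3 : ∑ i ∈ range (s - 2), (f i + f (s - 2 - 1 - i)) ≤ 2 * lg s := by
    rw [sum_add_distrib, sum_range_reflect f (s - 2)]
    have h4 : ∑ i ∈ range (s - 2), f i ≤ lg s := by
      rw [hf]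
      refine (harm (s - 2)).trans ?_
      unfold lg
      rcases Nat.eq_zero_or_pos (s - 2) with h | h
      · rw [h]
        simp only [Nat.cast_zero, Real.log_zero]
        linarith
      · have := Real.log_le_log (by exact_mod_cast h) (show ((s - 2 : ℕ) : ℝ) ≤ s by exact_mod_cast Nat.sub_le s 2)
        linarith
    linarith
  have h4 := mul_le_mul_of_nonneg_left (h2.trans h3) hs0.le
  linarith

theorem t_PSD (tt : S_TAU) (far : S_FAR) : S_PSD := by
  obtain ⟨-, htau, -, -, -⟩ := tt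
  obtain ⟨C₀, hC₀, hfar⟩ := far
  refine ⟨32 + 24 * Real.sqrt C₀, by positivity, ?_⟩
  intro S L β hS hL
  have hSR : (1 : ℝ) ≤ S := by exact_mod_cast hS
  have hS0 : (0 : ℝ) < S := by linarith
  have hlS : 0 ≤ Real.log S := Real.log_nonneg hSR
  have hl1 : 1 ≤ lg S := by unfold lg; linarith
  obtain ⟨l, hl⟩ : ∃ l, l = lg S := ⟨_, rfl⟩
  rw [← hl] at hl1 ⊢
  have hl0 : 0 < l := by linarith
  have hlg2 : lg (2 * S) ≤ 2 * l := by
    rw [hl]
    unfold lg
    push_cast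
    rw [Real.log_mul (by norm_num) hS0.ne']
    have := Real.log_two_lt_d9
    linarith
  have hlg20 : 0 ≤ lg (2 * S) := by
    unfold lg
    have : 0 ≤ Real.log ((2 * S : ℕ) : ℝ) := Real.log_natCast_nonneg _
    linarith
  obtain ⟨h1, h2⟩ := htau (2 * S) (by omega)
  have h3 := hfar (2 * S) L β (by omega) hL
  have e0 : 1 + Real.log ((2 * S : ℕ) : ℝ) = lg (2 * S) := rfl
  rw [e0] at h3
  push_cast at h1 h2 h3
  have htau0 : ∀ s, 0 ≤ tau s := fun s => Nat.cast_nonneg _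
  have hsub : Ico S (2 * S) ⊆ Icc 1 (2 * S) := by
    intro s hs
    rw [mem_Ico] at hs
    rw [mem_Icc]
    omega
  have hsplit : ∀ s : ℕ, Psi s L β = ∑ b ∈ (Bs s).filter (fun b => 1 ≤ kf s β b ∧ kf s β b + 2 ≤ s), gd L (β - (b : ℝ) / s) +
      near s L β := fun s => (sum_filter_add_sum_filter_not _ _ _).symm
  -- far fractions
  have hF : ∑ s ∈ Ico S (2 * S), tau s * ∑ b ∈ (Bs s).filter (fun b => 1 ≤ kf s β b ∧ kf s β b + 2 ≤ s), gd L (β - (b : ℝ) / s) ≤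
      32 * (l ^ 2 * (S : ℝ) ^ 2) := by
    have g1 : ∀ s ∈ Ico S (2 * S), tau s * ∑ b ∈ (Bs s).filter (fun b => 1 ≤ kf s β b ∧ kf s β b + 2 ≤ s), gd L (β - (b : ℝ) / s) ≤
        tau s * (4 * S * lg (2 * S)) := by
      intro s hs
      rw [mem_Ico] at hs
      refine mul_le_mul_of_nonneg_left ?_ (htau0 s)
      refine (far_le (by omega) β hL).trans ?_
      have g2 : (s : ℝ) ≤ 2 * S := by exact_mod_cast hs.2.le
      have g3 : lg s ≤ lg (2 * S) := by
        unfold lg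
        have : Real.log s ≤ Real.log ((2 * S : ℕ) : ℝ) :=
          Real.log_le_log (by exact_mod_cast (by omega : 0 < s)) (by exact_mod_cast hs.2.le)
        linarith
      have g4 : 0 ≤ lg s := by
        unfold lg
        have := Real.log_natCast_nonneg s
        linarith
      have g5 : (s : ℝ) * lg s ≤ 2 * S * lg (2 * S) := mul_le_mul g2 g3 g4 (by positivity)
      linarith
    refine (sum_le_sum g1).trans ?_
    rw [← sum_mul]
    have g2 : ∑ s ∈ Ico S (2 * S), tau s ≤ 2 * S * lg (2 * S) :=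
      (sum_le_sum_of_subset_of_nonneg hsub fun s _ _ => htau0 s).trans h1
    have g3 : (∑ s ∈ Ico S (2 * S), tau s) * (4 * S * lg (2 * S)) ≤ 2 * S * (2 * l) * (4 * S * (2 * l)) := by
      have g4 : (2 : ℝ) * S * lg (2 * S) ≤ 2 * S * (2 * l) := mul_le_mul_of_nonneg_left hlg2 (by positivity)
      have g5 : (4 : ℝ) * S * lg (2 * S) ≤ 4 * S * (2 * l) := mul_le_mul_of_nonneg_left hlg2 (by positivity)
      exact mul_le_mul (g2.trans g4) g5 (by positivity) (by positivity)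
    refine g3.trans (le_of_eq ?_)
    ring
  -- near fractions
  have hN : ∑ s ∈ Ico S (2 * S), tau s * near s L β ≤ 24 * Real.sqrt C₀ * (l ^ 2 * (Real.sqrt S * L + S * Real.sqrt S * Real.sqrt L)) := by
    have g0 : 0 ≤ ∑ s ∈ Ico S (2 * S), tau s * near s L β := sum_nonneg fun s _ => mul_nonneg (htau0 s) (near_nonneg s β hL)
    have g1 : (∑ s ∈ Ico S (2 * S), tau s * near s L β) ^ 2 ≤
        (∑ s ∈ Ico S (2 * S), tau s ^ 2) * ∑ s ∈ Ico S (2 * S), near s L β ^ 2 := sum_mul_sq_le_sq_mul_sq _ _ _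
    have g2 : ∑ s ∈ Ico S (2 * S), tau s ^ 2 ≤ 16 * S * l ^ 3 := by
      refine ((sum_le_sum_of_subset_of_nonneg hsub fun s _ _ => sq_nonneg _).trans h2).trans ?_
      have : lg (2 * S) ^ 3 ≤ (2 * l) ^ 3 := pow_le_pow_left₀ hlg20 hlg2 3
      calc (2 : ℝ) * S * lg (2 * S) ^ 3 ≤ 2 * S * (2 * l) ^ 3 := mul_le_mul_of_nonneg_left this (by positivity)
        _ = 16 * S * l ^ 3 := by ring
    have g3 : ∑ s ∈ Ico S (2 * S), near s L β ^ 2 ≤ 4 * L * (C₀ * (L + 8 * S ^ 2 * l)) := by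
      have g4 : ∀ s ∈ Ico S (2 * S), near s L β ^ 2 ≤ 4 * L * Psi s L β := by
        intro s hs
        rw [mem_Ico] at hs
        have a1 := near_le (show 1 ≤ s by omega) β hL
        have a2 := near_nonneg s β hL
        have a3 := near_le_Psi s β hL
        calc near s L β ^ 2 = near s L β * near s L β := sq _
          _ ≤ 4 * L * Psi s L β := mul_le_mul a1 a3 a2 (by positivity)
      refine (sum_le_sum g4).trans ?_
      rw [← mul_sum]
      refine mul_le_mul_of_nonneg_left ?_ (by positivity)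
      have g5 : ∑ s ∈ Ico S (2 * S), Psi s L β ≤ ∑ s ∈ Icc 1 (2 * S), Psi s L β :=
        sum_le_sum_of_subset_of_nonneg hsub fun s _ _ => sum_nonneg fun b _ => gd_nonneg _ hL
      refine (g5.trans h3).trans ?_
      refine mul_le_mul_of_nonneg_left ?_ hC₀.le
      have g6 : (2 * (S : ℝ)) ^ 2 * lg (2 * S) ≤ (2 * (S : ℝ)) ^ 2 * (2 * l) := mul_le_mul_of_nonneg_left hlg2 (by positivity)
      linarith
    have hC1 : Real.sqrt C₀ ^ 2 = C₀ := Real.sq_sqrt hC₀.le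
    have hS1 : Real.sqrt S ^ 2 = S := Real.sq_sqrt hS0.le
    have hL1 : Real.sqrt L ^ 2 = L := Real.sq_sqrt hL
    refine le_of_sq_le_sq ?_ (by positivity)
    refine g1.trans ?_
    have g4 : (∑ s ∈ Ico S (2 * S), tau s ^ 2) * ∑ s ∈ Ico S (2 * S), near s L β ^ 2 ≤
        16 * S * l ^ 3 * (4 * L * (C₀ * (L + 8 * S ^ 2 * l))) :=
      mul_le_mul g2 g3 (sum_nonneg fun _ _ => sq_nonneg _) (by positivity)
    refine g4.trans ?_
    have e1 : (24 * Real.sqrt C₀ * (l ^ 2 * (Real.sqrt S * L + S * Real.sqrt S * Real.sqrt L))) ^ 2 =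
        576 * C₀ * l ^ 4 * (S * L ^ 2 + S ^ 3 * L + 2 * (Real.sqrt S * L * (S * Real.sqrt S * Real.sqrt L))) := by
      calc (24 * Real.sqrt C₀ * (l ^ 2 * (Real.sqrt S * L + S * Real.sqrt S * Real.sqrt L))) ^ 2 =
          576 * Real.sqrt C₀ ^ 2 * l ^ 4 * (Real.sqrt S ^ 2 * L ^ 2 + S ^ 2 * Real.sqrt S ^ 2 * Real.sqrt L ^ 2 +
            2 * (Real.sqrt S * L * (S * Real.sqrt S * Real.sqrt L))) := by ring
        _ = _ := by rw [hC1, hS1, hL1]; ring
    rw [e1]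
    have e2 : 16 * S * l ^ 3 * (4 * L * (C₀ * (L + 8 * S ^ 2 * l))) = C₀ * (64 * (S * L ^ 2) * l ^ 3 + 512 * (S ^ 3 * L) * l ^ 4) := by ring
    rw [e2]
    have e3 : 576 * C₀ * l ^ 4 * (S * L ^ 2 + S ^ 3 * L + 2 * (Real.sqrt S * L * (S * Real.sqrt S * Real.sqrt L))) =
      C₀ * (576 * (S * L ^ 2) * l ^ 4 + 576 * (S ^ 3 * L) * l ^ 4 + 1152 * l ^ 4 * (Real.sqrt S * L * (S * Real.sqrt S * Real.sqrt L))) := by ring
    rw [e3]
    refine mul_le_mul_of_nonneg_left ?_ hC₀.le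
    have a1 : 0 ≤ 1152 * l ^ 4 * (Real.sqrt S * L * (S * Real.sqrt S * Real.sqrt L)) := by positivity
    have a2 : l ^ 3 ≤ l ^ 4 := pow_le_pow_right₀ hl1 (by norm_num)
    have a3 : 64 * ((S : ℝ) * L ^ 2) * l ^ 3 ≤ 64 * (S * L ^ 2) * l ^ 4 := mul_le_mul_of_nonneg_left a2 (by positivity)
    have a4 : 0 ≤ (S : ℝ) * L ^ 2 * l ^ 4 := by positivity
    have a5 : 0 ≤ (S : ℝ) ^ 3 * L * l ^ 4 := by positivity
    linarith
  have hsum : ∑ s ∈ Ico S (2 * S), tau s * Psi s L β =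
      ∑ s ∈ Ico S (2 * S), tau s * ∑ b ∈ (Bs s).filter (fun b => 1 ≤ kf s β b ∧ kf s β b + 2 ≤ s), gd L (β - (b : ℝ) / s) +
      ∑ s ∈ Ico S (2 * S), tau s * near s L β := by
    rw [← sum_add_distrib]
    refine sum_congr rfl fun s _ => ?_
    rw [hsplit s, mul_add]
  rw [hsum]
  have p1 : 0 ≤ l ^ 2 * (S : ℝ) ^ 2 := by positivity
  have p2 : 0 ≤ l ^ 2 * (Real.sqrt S * L + S * Real.sqrt S * Real.sqrt L) := by positivity
  have p3 : 0 ≤ Real.sqrt C₀ * (l ^ 2 * (S : ℝ) ^ 2) := by positivity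
  have e : (32 + 24 * Real.sqrt C₀) * l ^ 2 * ((S : ℝ) ^ 2 + Real.sqrt S * L + S * Real.sqrt S * Real.sqrt L) =
      32 * (l ^ 2 * (S : ℝ) ^ 2) + 24 * (Real.sqrt C₀ * (l ^ 2 * (S : ℝ) ^ 2)) + 32 * (l ^ 2 * (Real.sqrt S * L + S * Real.sqrt S * Real.sqrt L)) +
      24 * Real.sqrt C₀ * (l ^ 2 * (Real.sqrt S * L + S * Real.sqrt S * Real.sqrt L)) := by ring
  rw [e]
  linarith

end

end Pool.Agent.H97.BR
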